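import Pool.Agent.Helper11.PP.GoalsE
import Pool.Agent.Helper42.PP.Goals1
import Pool.Agent.Helper99.RS.QEX

/-!
# Project PP (MP_fc6b1e_nt, density theorem), part D: finite index of the local conditions
-/

set_option autoImplicit false

namespace Pool.Agent.Helper15.PP

open NumberField Polynomial Module IsDedekindDomain Pool.Agent.Helper51.RP
open Pool.Agent.Helper42.PP

section

variable {F : Type} [Field F] [NumberField F]

/-- The local condition at one prime. -/
def At (p : ℕ) (w : HeightOneSpectrum (𝓞 F)) (t : F) : Prop :=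
  w.valuation F (t - 1) < 1 ∧ w.valuation F (t - 1) ≤ w.valuation F (p : F) ^ 3

theorem At.val {p : ℕ} {w : HeightOneSpectrum (𝓞 F)} {t : F} (h : At p w t) :
    w.valuation F t = 1 := by
  have h1 : t = 1 + (t - 1) := by ring
  have h3 : w.valuation F (t - 1) < w.valuation F 1 := by
    rw [map_one]
    exact h.1
  rw [h1, Valuation.map_add_eq_of_lt_left _ h3, map_one]

theorem At.one (p : ℕ) (w : HeightOneSpectrum (𝓞 F)) : At p w (1 : F) := by
  constructor
  · rw [sub_self, map_zero]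
    exact zero_lt_one
  · rw [sub_self, map_zero]
    exact zero_le

theorem At.mul {p : ℕ} {w : HeightOneSpectrum (𝓞 F)} {s t : F} (hs : At p w s) (ht : At p w t) :
    At p w (s * t) := by
  have h1 : s * t - 1 = (s - 1) * t + (t - 1) := by ring
  have h2 : w.valuation F ((s - 1) * t) = w.valuation F (s - 1) := by
    rw [map_mul, ht.val, mul_one]
  constructor
  · rw [h1]
    exact Valuation.map_add_lt _ (by rw [h2]; exact hs.1) ht.1
  · rw [h1]
    exact Valuation.map_add_le _ (by rw [h2]; exact hs.2) ht.2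

theorem At.inv {p : ℕ} {w : HeightOneSpectrum (𝓞 F)} {s : F} (hs : At p w s) :
    At p w s⁻¹ := by
  have hv := hs.val
  have hs0 : s ≠ 0 := by
    rintro rfl
    rw [map_zero] at hv
    exact zero_ne_one hv
  have h1 : s⁻¹ - 1 = -((s - 1) * s⁻¹) := by
    field_simp
    ring
  have h2 : w.valuation F (s⁻¹ - 1) = w.valuation F (s - 1) := by
    rw [h1, Valuation.map_neg, map_mul, map_inv₀, hv, inv_one, mul_one]
  exact ⟨by rw [h2]; exact hs.1, by rw [h2]; exact hs.2⟩

/-- The group of the elements which satisfy the local conditions. -/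
def gZ (p : ℕ) (Z : Set (HeightOneSpectrum (𝓞 F))) : Subgroup Fˣ where
  carrier := {x | LocS p Z x}
  mul_mem' := by
    rintro a b ⟨y, hy⟩ ⟨y', hy'⟩
    refine ⟨y * y', fun w hw => ?_⟩
    have h1 : (((a * b : Fˣ) : F) * ((y * y' : Fˣ) : F) ^ p) =
        ((a : F) * (y : F) ^ p) * ((b : F) * (y' : F) ^ p) := by
      push_cast
      ring
    rw [h1]
    exact At.mul (hy w hw) (hy' w hw)
  one_mem' := by
    refine ⟨1, fun w _ => ?_⟩
    have h1 : (((1 : Fˣ) : F) * ((1 : Fˣ) : F) ^ p) = 1 := by simp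
    rw [h1]
    exact At.one p w
  inv_mem' := by
    rintro a ⟨y, hy⟩
    refine ⟨y⁻¹, fun w hw => ?_⟩
    have h1 : (((a⁻¹ : Fˣ) : F) * ((y⁻¹ : Fˣ) : F) ^ p) = ((a : F) * (y : F) ^ p)⁻¹ := by
      push_cast
      rw [mul_inv, inv_pow]
    rw [h1]
    exact At.inv (hy w hw)

theorem mem_gZ {p : ℕ} {Z : Set (HeightOneSpectrum (𝓞 F))} {x : Fˣ} :
    x ∈ gZ p Z ↔ LocS p Z x := Iff.rfl

end

theorem d_tau (h1 : Pool.Agent.Helper42.PP.P_LFI) : Pool.Agent.Helper11.PP.D_TAU := by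
  classical
  intro p hp F _ _ Z hZ H
  have hp0 : (p : F) ≠ 0 := by exact_mod_cast hp.out.ne_zero
  set Z' : Set (HeightOneSpectrum (𝓞 F)) :=
    Z ∪ {w : HeightOneSpectrum (𝓞 F) | w.valuation F (p : F) ≠ 1} with hZ'
  have hfin : Z'.Finite := hZ.union (Pool.Agent.Helper99.RS.finite_bad hp0)
  obtain ⟨G, hG, hGfi, -, -, -⟩ := h1 p F F Z' hfin
    (fun w hw => Or.inr hw.ne) (by
      intro w hw w' hc
      obtain ⟨g, hg⟩ := hc
      have hg1 : ∀ y : F, g y = y := fun y => g.commutes y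
      have h2 : w' = w := by
        apply HeightOneSpectrum.ext
        ext x
        have h3 := hg (x : F)
        rw [hg1] at h3
        rw [← HeightOneSpectrum.valuation_lt_one_iff_mem (K := F),
          ← HeightOneSpectrum.valuation_lt_one_iff_mem (K := F)]
        change w'.valuation F (x : F) < 1 ↔ w.valuation F (x : F) < 1
        rw [h3]
      rw [h2]
      exact hw)
  have hle : G ≤ gZ p Z := by
    intro x hx
    obtain ⟨y, hy⟩ := (hG x).1 hx
    exact ⟨y, fun w hw => hy w (Or.inl hw)⟩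
  have hfi : (gZ p Z).FiniteIndex := Subgroup.finiteIndex_of_le hle
  have hfq : Finite (Fˣ ⧸ gZ p Z) := inferInstance
  have hft : Fintype (Fˣ ⧸ gZ p Z) := Fintype.ofFinite _
  let rep : (Fˣ ⧸ gZ p Z) → Fˣ := fun q =>
    if h : ∃ a ∈ H, (QuotientGroup.mk a : Fˣ ⧸ gZ p Z) = q then h.choose else 1
  have hrep : ∀ q : Fˣ ⧸ gZ p Z, (∃ a ∈ H, (QuotientGroup.mk a : Fˣ ⧸ gZ p Z) = q) →
      rep q ∈ H ∧ (QuotientGroup.mk (rep q) : Fˣ ⧸ gZ p Z) = q := by
    intro q h
    have h3 : rep q = h.choose := dif_pos h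
    rw [h3]
    exact h.choose_spec
  have hdiv : ∀ a c : Fˣ, LocS p Z (a / c) ↔
      (QuotientGroup.mk a : Fˣ ⧸ gZ p Z) = QuotientGroup.mk c := by
    intro a c
    rw [QuotientGroup.eq_iff_div_mem]
    rfl
  refine ⟨(Finset.univ.filter (fun q : Fˣ ⧸ gZ p Z => ∃ a ∈ H,
    (QuotientGroup.mk a : Fˣ ⧸ gZ p Z) = q)).image rep, ?_, ?_⟩
  · intro c hc
    obtain ⟨q, hq, rfl⟩ := Finset.mem_image.1 hc
    exact (hrep q (Finset.mem_filter.1 hq).2).1
  · intro a ha
    have hqa : ∃ a' ∈ H, (QuotientGroup.mk a' : Fˣ ⧸ gZ p Z) = QuotientGroup.mk a := ⟨a, ha, rfl⟩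
    refine ⟨rep (QuotientGroup.mk a), ⟨Finset.mem_image.2 ⟨QuotientGroup.mk a,
      Finset.mem_filter.2 ⟨Finset.mem_univ _, hqa⟩, rfl⟩, ?_⟩, ?_⟩
    · rw [hdiv]
      exact (hrep _ hqa).2.symm
    · rintro c ⟨hc, hc2⟩
      obtain ⟨q, hq, rfl⟩ := Finset.mem_image.1 hc
      rw [hdiv] at hc2
      rw [hc2, (hrep q (Finset.mem_filter.1 hq).2).2]

end Pool.Agent.Helper15.PP
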